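import Pool.Agent.H572R4.Stmts

set_option autoImplicit false

namespace Pool.Agent.H365R3.PI

open Pool.Agent.H572R4

def Imm : Prop := ∀ C : Set ℕ, CohS C → ∀ W : Set ℕ, REPred (fun x => x ∈ W) → W ⊆ C → W.Finite

/-- middle coordinate -/
def yc (x : ℕ) : ℕ := x.unpair.2.unpair.1

def old (x : ℕ) : ℕ := Nat.pair (Nat.pair x.unpair.1 x.unpair.2.unpair.1) x.unpair.2.unpair.2

def new (z : ℕ) : ℕ := Nat.pair z.unpair.1.unpair.1 (Nat.pair z.unpair.1.unpair.2 z.unpair.2)

theorem new_old (x : ℕ) : new (old x) = x := by simp [new, old]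

theorem old_new (x : ℕ) : old (new x) = x := by simp [new, old]

theorem c1 : Computable fun x : ℕ => x.unpair.1 := Primrec.to_comp (Primrec.fst.comp Primrec.unpair)
theorem c2 : Computable fun x : ℕ => x.unpair.2 := Primrec.to_comp (Primrec.snd.comp Primrec.unpair)

theorem cyc : Computable yc := c1.comp c2

theorem comp_pair {f g : ℕ → ℕ} (hf : Computable f) (hg : Computable g) :
    Computable fun x => Nat.pair (f x) (g x) :=
  (Primrec₂.natPair.to_comp).comp hf hg

theorem comp_old : Computable old := comp_pair (comp_pair c1 (c1.comp c2)) (c2.comp c2)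

theorem comp_new : Computable new := comp_pair (c1.comp c1) (comp_pair (c2.comp c1) c2)

def col (n y : ℕ) : Set ℕ := {x | x.unpair.1 = n ∧ yc x = y}

def dead (C : Set ℕ) : Set ℕ := {x | yc x ∉ C}

theorem cr_inter {R S : Set ℕ} (h : CR R) (h' : CR S) : CR (R ∩ S) :=
  (Pool.Agent.Helper446.CB.cp_and h h').of_eq fun _ => Iff.rfl

theorem cr_diff {R S : Set ℕ} (h : CR R) (h' : CR S) : CR (R \ S) :=
  (Pool.Agent.Helper446.CB.cp_and h h'.not).of_eq fun _ => Iff.rfl

theorem cr_congr {R S : Set ℕ} (h : CR R) (e : R = S) : CR S := e ▸ h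

theorem cr_finite {S : Set ℕ} (h : S.Finite) : CR S := by
  have h1 : ComputablePred fun x : ℕ => x ∈ h.toFinset.toList :=
    Pool.Agent.Helper446.RE.cp_mem Computable.id (Computable.const _)
  exact h1.of_eq fun x => by simp

theorem cr_empty : CR (∅ : Set ℕ) := cr_finite Set.finite_empty

theorem cr_pre {S : Set ℕ} (h : CR S) : CR {x | yc x ∈ S} :=
  (Pool.Agent.Helper446.RE.cp_comp h cyc).of_eq fun _ => Iff.rfl

theorem cr_row' (n : ℕ) : CR (row n) := cr_row n

theorem cr_col (n y : ℕ) : CR (col n y) :=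
  cr_congr (cr_inter (cr_row n) (cr_pre (cr_finite (Set.finite_singleton y)))) (by
    ext x; simp [row, col])

theorem fin_cols (imm : Imm) {C : Set ℕ} (hC : CohS C) {R : Set ℕ} (hR : CR R)
    (hd : ∀ x ∈ R, yc x ∈ C) : {y | ∃ x, x ∈ R ∧ yc x = y}.Finite := by
  refine imm C hC _ ?_ ?_
  · have h : REPred fun p : ℕ × ℕ => p.2 ∈ R ∧ yc p.2 = p.1 :=
      Pool.Agent.Helper446.RE.and
        (Pool.Agent.Helper446.RE.comp (Pool.Agent.Helper446.RE.of_comput hR) Computable.snd)
        (Pool.Agent.Helper446.RE.eq (cyc.comp Computable.snd) Computable.fst)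
    exact Pool.Agent.Helper446.RE.exN (p := fun y x => x ∈ R ∧ yc x = y) h
  · rintro y ⟨x, hx, rfl⟩
    exact hd x hx

theorem image_col (n y : ℕ) : old '' col n y = row (Nat.pair n y) := by
  ext z
  constructor
  · rintro ⟨x, ⟨h1, h2⟩, rfl⟩
    show (old x).unpair.1 = _
    rw [old, Nat.unpair_pair]
    show Nat.pair x.unpair.1 (yc x) = _
    rw [h1, h2]
  · intro h
    have h' : z.unpair.1 = Nat.pair n y := h
    refine ⟨new z, ⟨?_, ?_⟩, old_new z⟩
    · rw [new, Nat.unpair_pair, h', Nat.unpair_pair]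
    · show (new z).unpair.2.unpair.1 = y
      rw [new, Nat.unpair_pair, Nat.unpair_pair, h', Nat.unpair_pair]

theorem tw_empty (h3 : TaskC3) (A : ℕ → Set ℕ) (l : ℕ) : ¬ TW A l ∅ :=
  h3 A l ∅ cr_empty (fun i _ => cr_congr cr_empty (by simp))

theorem tw_fin (h1 : TaskC1) (h2 : TaskC2) (h3 : TaskC3) (A : ℕ → Set ℕ) (l : ℕ) (F : Finset ℕ) :
    ∀ R : Set ℕ, CR R → TW A l R → (∀ x ∈ R, yc x ∈ F) →
      ∃ y ∈ F, TW A l (R ∩ {x | yc x = y}) := by
  classical
  induction F using Finset.induction_on with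
  | empty =>
    intro R _ hT hF
    have : R = ∅ := Set.eq_empty_of_forall_notMem fun x hx => by simpa using hF x hx
    subst this
    exact absurd hT (tw_empty h3 A l)
  | insert y F _ ih =>
    intro R hR hT hF
    have hY : CR {x | yc x = y} :=
      cr_congr (cr_pre (cr_finite (Set.finite_singleton y))) (by ext x; simp)
    have hsplit : R = (R ∩ {x | yc x = y}) ∪ (R \ {x | yc x = y}) :=
      (Set.inter_union_sdiff R _).symm
    rw [hsplit] at hT
    rcases h2 h1 A l _ _ (cr_inter hR hY) (cr_diff hR hY) hT with h | h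
    · exact ⟨y, Finset.mem_insert_self _ _, h⟩
    · obtain ⟨y', hy', h'⟩ := ih (R \ {x | yc x = y}) (cr_diff hR hY) h (fun x hx => by
        rcases Finset.mem_insert.1 (hF x hx.1) with e | e
        · exact absurd e hx.2
        · exact e)
      refine ⟨y', Finset.mem_insert_of_mem hy', ?_⟩
      have hY' : CR {x | yc x = y'} :=
        cr_congr (cr_pre (cr_finite (Set.finite_singleton y'))) (by ext x; simp)
      exact h1 A l _ _ (cr_inter (cr_diff hR hY) hY') (cr_inter hR hY')
        (fun x hx => ⟨hx.1.1, hx.2⟩) h'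

theorem TW_succ (A : ℕ → Set ℕ) (k : ℕ) (R : Set ℕ) : TW A (k + 1) R ↔
    ((Even k → ∃ R', CR R' ∧ R' ⊆ R ∧ CR (R' ∩ A (k + 1)) ∧ TW A k R') ∧
    (¬ Even k → ∀ R' R'', CR R' → CR R'' → Disjoint R' R'' → R' ∪ R'' = R →
      CR (R' ∩ A (k + 1)) → TW A k R'')) := by
  rw [TW]

theorem taskC10 (imm : Imm) : TaskC10 := by
  intro hB h1 h2 h3 h4 h6 k hk hH D hD
  obtain ⟨C, hC⟩ := hB
  obtain ⟨D', hD', hmono, hDD⟩ := h6 k D hk hD
  obtain ⟨A', hA', hnest, hT⟩ := hH D' hD'
  obtain ⟨l, rfl⟩ : ∃ l, k = l + 1 :=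
    Nat.exists_eq_succ_of_ne_zero (by rintro rfl; exact hk (by simp))
  have hl : Even l := by
    rcases Nat.even_or_odd l with h | h
    · exact h
    · exact absurd h.add_one hk
  let A : ℕ → Set ℕ := fun i => {x | (i ≤ l + 1 ∧ old x ∈ A' i) ∨ x ∈ dead C}
  have hdead : REPred fun x => x ∈ dead C :=
    Pool.Agent.Helper446.RE.comp hC.2.1 cyc
  have hRE : ∀ i, REPred (fun x => x ∈ A i) := fun i =>
    Pool.Agent.Helper446.RE.or
      (Pool.Agent.Helper446.RE.and (Pool.Agent.Helper446.RE.const _)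
        (Pool.Agent.Helper446.RE.comp (hA' i) comp_old)) hdead
  have hne : ∀ i j, i ≤ j → j ≤ l + 1 + 1 → A j ⊆ A i := by
    intro i j hij hj x hx
    rcases hx with ⟨h5, h7⟩ | hx
    · exact Or.inl ⟨hij.trans h5, hnest i j hij h5 h7⟩
    · exact Or.inr hx
  have hcol : ∀ y ∈ C, ∀ n, TW A (l + 1) (col n y) ↔ D' (Nat.pair n y) := by
    intro y hy n
    have h := h4 A A' old new comp_old comp_new new_old (l + 1) (col n y) (cr_col n y)
      (by rw [image_col]; exact cr_row _) (fun i hi x hx => by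
        constructor
        · rintro (h | h)
          · exact h.2
          · exact absurd (show yc x ∈ C by rw [hx.2]; exact hy) h
        · intro h
          exact Or.inl ⟨hi, h⟩)
    rw [h, image_col, hT]
  have hAtop : A (l + 1 + 1) = dead C := by
    ext x
    constructor
    · rintro (⟨h, -⟩ | h)
      · omega
      · exact h
    · exact Or.inr
  refine ⟨A, hRE, hne, fun n => ?_⟩
  rw [TW_succ, hAtop]
  constructor
  · rintro ⟨-, h⟩
    rw [hDD]
    by_contra hcon
    push Not at hcon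
    obtain ⟨y0, hy0⟩ := hcon
    have hlow : ∀ y, y0 ≤ y → ¬ D' (Nat.pair n y) := fun y hy h' => hy0 (hmono n y0 y hy h')
    have hY0 : CR {x | yc x ∈ Set.Iio y0} := cr_pre (cr_finite (Set.finite_Iio y0))
    have hR1 : CR (row n ∩ {x | yc x ∈ Set.Iio y0}) := cr_inter (cr_row n) hY0
    have hR2 : CR (row n \ {x | yc x ∈ Set.Iio y0}) := cr_diff (cr_row n) hY0
    have hTW := h hk _ _ hR1 hR2 (Set.disjoint_left.2 fun x hx hx' => hx'.2 hx.2)
      (Set.inter_union_sdiff _ _) (by
        have hS : CR {x | yc x ∈ (Set.Iio y0 \ C)} :=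
          cr_pre (cr_finite ((Set.finite_Iio y0).sdiff))
        refine cr_congr (cr_inter (cr_row n) hS) ?_
        ext x
        simp only [Set.mem_inter_iff, Set.mem_ofPred_eq, Set.mem_sdiff, dead]
        tauto)
    rw [TW_succ] at hTW
    obtain ⟨R3, hR3, hsub, hR3A, hT3⟩ := hTW.1 hl
    have hsp : R3 = (R3 ∩ A (l + 1)) ∪ (R3 \ (R3 ∩ A (l + 1))) := by
      ext x
      simp only [Set.mem_union, Set.mem_inter_iff, Set.mem_sdiff]
      tauto
    rw [hsp] at hT3
    rcases h2 h1 A l _ _ hR3A (cr_diff hR3 hR3A) hT3 with h5 | h5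
    · refine h3 A l _ hR3A (fun i hi => ?_) h5
      refine cr_congr hR3A ?_
      ext x
      simp only [Set.mem_inter_iff]
      have := hne i (l + 1) (by omega) (by omega)
      constructor
      · intro hx
        exact ⟨hx, this hx.2⟩
      · intro hx
        exact hx.1
    · set R4 := R3 \ (R3 ∩ A (l + 1)) with hR4
      have hR4c : CR R4 := cr_diff hR3 hR3A
      have hd4 : ∀ x ∈ R4, yc x ∈ C := by
        intro x hx
        by_contra hx'
        exact hx.2 ⟨hx.1, Or.inr hx'⟩
      have hfin := fin_cols imm hC hR4c hd4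
      obtain ⟨y, hyF, hTy⟩ := tw_fin h1 h2 h3 A l hfin.toFinset R4 hR4c h5 (fun x hx => by
        rw [Set.Finite.mem_toFinset]
        exact ⟨x, hx, rfl⟩)
      rw [Set.Finite.mem_toFinset] at hyF
      obtain ⟨x, hx, hxy⟩ := hyF
      have hyC : y ∈ C := hxy ▸ hd4 x hx
      have hyy : y0 ≤ y := by
        have := (hsub hx.1).2
        rw [← hxy]
        exact not_lt.1 this
      refine hlow y hyy ((hcol y hyC n).1 ?_)
      rw [TW_succ]
      refine ⟨fun _ => ⟨R4 ∩ {x | yc x = y}, ?_, ?_, ?_, hTy⟩, fun h => absurd hl h⟩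
      · exact cr_inter hR4c (cr_congr (cr_pre (cr_finite (Set.finite_singleton y)))
          (by ext x; simp))
      · intro z hz
        exact ⟨(hsub hz.1.1).1, hz.2⟩
      · refine cr_congr cr_empty ?_
        symm
        apply Set.eq_empty_of_forall_notMem
        intro z hz
        exact hz.1.1.2 ⟨hz.1.1.1, hz.2⟩
  · intro hDn
    refine ⟨fun h => absurd h hk, fun _ R' R'' hR' hR'' hdis hun hdd => ?_⟩
    have hfin := fin_cols imm hC (R := R' \ (R' ∩ dead C)) (cr_diff hR' hdd) (fun x hx => by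
      by_contra hx'
      exact hx.2 ⟨hx.1, hx'⟩)
    obtain ⟨y, hyC, hyn⟩ := hC.1.exists_notMem_finite hfin
    have hsub : col n y ⊆ R'' := by
      intro x hx
      have : x ∈ R' ∪ R'' := by rw [hun]; exact hx.1
      rcases this with h | h
      · exfalso
        apply hyn
        refine ⟨x, ⟨h, fun h' => ?_⟩, hx.2⟩
        exact h'.2 (show yc x ∈ C by rw [hx.2]; exact hyC)
      · exact h
    exact h1 A (l + 1) _ _ (cr_col n y) hR'' hsub ((hcol y hyC n).2 ((hDD n).1 hDn y))

end Pool.Agent.H365R3.PI
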