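import Pool.Agent.H572R4.Stmts

set_option autoImplicit false

namespace Pool.Agent.H365R3.PI.D2

open Pool.Agent.H572R4 Pool.Agent.Helper446.CB Pool.Agent.Helper446.Defs

def cls (R : Set ℕ) : Set (ℕ → Bool) :=
  {x | ∀ j, x j = true → (∀ i < j, x i = false) → j ∈ R}

theorem seg_get (x : ℕ → Bool) (n i : ℕ) (b : Bool) (h : (seg x n)[i]? = some b) :
    i < n ∧ x i = b := by
  by_cases hi : i < n
  · rw [seg_getElem? x hi] at h
    exact ⟨hi, Option.some.inj h⟩
  · exfalso
    have : (seg x n)[i]? = none := by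
      rw [List.getElem?_eq_none_iff]
      simp [seg]
      omega
    rw [this] at h
    cases h

theorem isPi01_cls {R : Set ℕ} (hR : CR R) : IsPi01 (cls R) := by
  rw [isPi01_iff]
  refine ⟨{s | ∃ j, j ∉ R ∧ s[j]? = some true ∧ ∀ i < j, s[i]? = some false}, ?_, ?_⟩
  · have h1 : REPred fun x : List Bool × ℕ => x.2 ∉ R :=
      Pool.Agent.Helper446.RE.comp (Pool.Agent.Helper446.RE.of_comput hR.not) Computable.snd
    have h2 : REPred fun x : List Bool × ℕ => x.1[x.2]? = some true :=
      Pool.Agent.Helper446.RE.eq (Computable.list_getElem?.comp Computable.fst Computable.snd)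
        (Computable.const _)
    have h3 : REPred fun x : List Bool × ℕ => ∀ i < x.2, x.1[i]? = some false := by
      refine Pool.Agent.Helper446.RE.all_lt (p := fun (x : List Bool × ℕ) i => x.1[i]? = some false)
        ?_ Computable.snd
      exact Pool.Agent.Helper446.RE.eq
        (Computable.list_getElem?.comp (Computable.fst.comp Computable.fst) Computable.snd)
        (Computable.const _)
    exact Pool.Agent.Helper446.RE.exN
      (p := fun (s : List Bool) j => j ∉ R ∧ s[j]? = some true ∧ ∀ i < j, s[i]? = some false)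
      (Pool.Agent.Helper446.RE.and h1 (Pool.Agent.Helper446.RE.and h2 h3))
  · ext x
    constructor
    · rintro h n ⟨j, hj, h1, h2⟩
      exact hj (h j (seg_get x n j _ h1).2 fun i hi => (seg_get x n i _ (h2 i hi)).2)
    · intro h j hj hi
      by_contra hjR
      refine h (j + 1) ⟨j, hjR, ?_, fun i hij => ?_⟩
      · rw [seg_getElem? x (Nat.lt_succ_self j), hj]
      · rw [seg_getElem? x (by omega), hi i hij]

theorem zz_mem (R : Set ℕ) : zz ∈ cls R := by
  intro j hj
  simp [zz] at hj

theorem xp_mem (R : Set ℕ) (j : ℕ) : xp j ∈ cls R ↔ j ∈ R := by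
  constructor
  · intro h
    refine h j (by simp [xp]) fun i hi => ?_
    simp [xp]
    omega
  · intro h i hi _
    have : i = j := by simpa [xp] using hi
    rw [this]
    exact h

theorem first {x : ℕ → Bool} (hx : x ≠ zz) : ∃ j, x j = true ∧ ∀ i < j, x i = false := by
  classical
  have : ∃ j, x j = true := by
    by_contra h
    push Not at h
    exact hx (funext fun j => by simpa [zz] using h j)
  exact ⟨Nat.find this, Nat.find_spec this, fun i hi => by simpa using Nat.find_min this hi⟩

theorem taskD2 : TaskD2 := by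
  intro B hB R hR
  have hz : ∀ S : Set ℕ, B.1 ⊆ cls S := by
    intro S x hx
    rw [hB] at hx
    rw [Set.mem_singleton_iff.1 hx]
    exact zz_mem S
  refine ⟨⟨cls R, isPi01_cls hR, hz _⟩, ⟨cls Rᶜ, isPi01_cls ?_, hz _⟩, ?_, ?_, ?_, ?_⟩
  · exact hR.not.of_eq fun _ => Iff.rfl
  · apply Subtype.ext
    show cls R ∩ cls Rᶜ = B.1
    rw [hB]
    ext x
    constructor
    · rintro ⟨h1, h2⟩
      by_contra hx
      obtain ⟨j, hj, hi⟩ := first (x := x) hx
      exact h2 j hj hi (h1 j hj hi)
    · intro hx
      rw [Set.mem_singleton_iff.1 hx]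
      exact ⟨zz_mem _, zz_mem _⟩
  · apply Subtype.ext
    show cls R ∪ cls Rᶜ = Set.univ
    rw [Set.eq_univ_iff_forall]
    intro x
    by_cases hx : x = zz
    · rw [hx]; exact Or.inl (zz_mem _)
    obtain ⟨j, hj, hi⟩ := first hx
    have huniq : ∀ j', x j' = true → (∀ i < j', x i = false) → j' = j := by
      intro j' h1 h2
      rcases lt_trichotomy j' j with h | h | h
      · rw [hi j' h] at h1; cases h1
      · exact h
      · rw [h2 j h] at hj; cases hj
    by_cases hjR : j ∈ R
    · left
      intro j' h1 h2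
      rw [huniq j' h1 h2]; exact hjR
    · right
      intro j' h1 h2
      rw [huniq j' h1 h2]; exact hjR
  · ext j; exact xp_mem R j
  · ext j; exact xp_mem Rᶜ j

end Pool.Agent.H365R3.PI.D2
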